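import Pool.Agent.helper79.HT.Defs

/-!
Module Q for MP_e6cd9b_lc: an idempotent ultrafilter of blocks.
-/

set_option autoImplicit false

namespace Pool.Agent.helper30.HT

open Pool.Agent.helper79.HT Filter

attribute [local instance] Ultrafilter.mul Ultrafilter.semigroup

theorem big_mul (n : ℕ) (s t : Blk) (hs : s ∈ Big n) (ht : t ∈ Big n) : s * t ∈ Big n := by
  obtain ⟨⟨a, ha⟩, hs2⟩ := hs
  refine ⟨⟨a, Finset.mem_union_left _ ha⟩, fun b hb => ?_⟩
  rcases Finset.mem_union.1 hb with h | h
  · exact hs2 b h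
  · exact ht.2 b h

/-- Q -/
theorem exists_idemQ : ∃ q : Ultrafilter Blk, IdemQ q := by
  have := exists_idempotent_in_compact_subsemigroup (M := Ultrafilter Blk)
    (fun V => Ultrafilter.continuous_mul_left V) {q | ∀ n, Big n ∈ q} ?_ ?_ ?_
  · obtain ⟨q, hq, hqq⟩ := this
    refine ⟨q, hq, fun P => ?_⟩
    have h := Ultrafilter.eventually_mul q q P
    rw [hqq] at h
    exact h.symm
  · let f : ℕ → Blk := fun n => ({n} : Finset ℕ)
    refine ⟨Ultrafilter.of (Filter.map f atTop), fun n => ?_⟩
    apply Ultrafilter.of_le (Filter.map f atTop)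
    rw [Filter.mem_map]
    filter_upwards [eventually_ge_atTop n] with m hm
    refine ⟨⟨m, Finset.mem_singleton_self m⟩, fun a ha => ?_⟩
    rw [Finset.mem_singleton.1 ha]; exact hm
  · apply IsClosed.isCompact
    have : {q : Ultrafilter Blk | ∀ n, Big n ∈ q} = ⋂ n, {q | Big n ∈ q} := by
      ext q; simp
    rw [this]
    exact isClosed_iInter fun n => ultrafilter_isClosed_basic _
  · intro p hp q hq n
    change ∀ᶠ s in (p * q : Ultrafilter Blk), s ∈ Big n
    rw [Ultrafilter.eventually_mul]
    filter_upwards [hp n] with s hs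
    filter_upwards [hq n] with t ht
    exact big_mul n s t hs ht

end Pool.Agent.helper30.HT
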