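import Mathlib

/-!
Module T for MP_e6cd9b_lc: a countable list of continuous functionals containing all Turing
reductions.
-/

set_option autoImplicit false

namespace Pool.Agent.helper30.HT

/-- codes for oracle computations -/
inductive OC : Type
  | zero : OC
  | succ : OC
  | left : OC
  | right : OC
  | oracle : OC
  | pair : OC → OC → OC
  | comp : OC → OC → OC
  | prec : OC → OC → OC
  | rfind : OC → OC
  deriving Countable

instance : Nonempty OC := ⟨.zero⟩

/-- evaluation with oracle `h` -/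
def ev (h : ℕ → ℕ) : OC → ℕ →. ℕ
  | .zero => fun _ => 0
  | .succ => Nat.succ
  | .left => fun n => (Nat.unpair n).1
  | .right => fun n => (Nat.unpair n).2
  | .oracle => PFun.lift h
  | .pair a b => fun n => (Nat.pair <$> ev h a n <*> ev h b n)
  | .comp a b => fun n => ev h b n >>= ev h a
  | .prec a b => fun p =>
        let (a', n) := Nat.unpair p
        n.rec (ev h a a') fun y IH => do
          let i ← IH
          ev h b (Nat.pair a' (Nat.pair y i))
  | .rfind a => fun a' => Nat.rfind fun n => (fun m => m = 0) <$> ev h a (Nat.pair a' n)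

theorem ev_complete (h : ℕ → ℕ) (f : ℕ →. ℕ) (hf : Nat.RecursiveIn {PFun.lift h} f) :
    ∃ c, ev h c = f := by
  induction hf with
  | zero => exact ⟨.zero, rfl⟩
  | succ => exact ⟨.succ, rfl⟩
  | left => exact ⟨.left, rfl⟩
  | right => exact ⟨.right, rfl⟩
  | oracle g hg => exact ⟨.oracle, hg.symm⟩
  | pair _ _ ha hb =>
    obtain ⟨a, rfl⟩ := ha; obtain ⟨b, rfl⟩ := hb; exact ⟨.pair a b, rfl⟩
  | comp _ _ ha hb =>
    obtain ⟨a, rfl⟩ := ha; obtain ⟨b, rfl⟩ := hb; exact ⟨.comp a b, rfl⟩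
  | prec _ _ ha hb =>
    obtain ⟨a, rfl⟩ := ha; obtain ⟨b, rfl⟩ := hb; exact ⟨.prec a b, rfl⟩
  | rfind _ ha =>
    obtain ⟨a, rfl⟩ := ha; exact ⟨.rfind a, rfl⟩

/-- agreement below `u` -/
def Agr (h h' : ℕ → ℕ) (u : ℕ) : Prop := ∀ m < u, h' m = h m

theorem Agr.mono {h h' : ℕ → ℕ} {u u' : ℕ} (H : Agr h h' u) (hu : u' ≤ u) : Agr h h' u' :=
  fun m hm => H m (lt_of_lt_of_le hm hu)

theorem ev_cont (h : ℕ → ℕ) (c : OC) : ∀ n v, v ∈ ev h c n →
    ∃ u, ∀ h', Agr h h' u → v ∈ ev h' c n := by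
  induction c with
  | zero => intro n v hv; exact ⟨0, fun h' _ => hv⟩
  | succ => intro n v hv; exact ⟨0, fun h' _ => hv⟩
  | left => intro n v hv; exact ⟨0, fun h' _ => hv⟩
  | right => intro n v hv; exact ⟨0, fun h' _ => hv⟩
  | oracle =>
    intro n v hv
    refine ⟨n + 1, fun h' H => ?_⟩
    have : v = h n := by simpa [ev] using hv
    have h2 := H n (Nat.lt_succ_self n)
    simp [ev, this, h2]
  | pair a b iha ihb =>
    intro n v hv
    simp only [ev, Seq.seq, Part.map_eq_map, Part.bind_map, Part.mem_bind_iff, Part.mem_map_iff]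
      at hv ⊢
    obtain ⟨x, hx, y, hy, rfl⟩ := hv
    obtain ⟨u1, h1⟩ := iha _ _ hx
    obtain ⟨u2, h2⟩ := ihb _ _ hy
    exact ⟨max u1 u2, fun h' H => ⟨x, h1 h' (H.mono (le_max_left _ _)), y,
      h2 h' (H.mono (le_max_right _ _)), rfl⟩⟩
  | comp a b iha ihb =>
    intro n v hv
    obtain ⟨x, hx, hy⟩ := Part.mem_bind_iff.1 (show v ∈ (ev h b n).bind (ev h a) from hv)
    obtain ⟨u1, h1⟩ := ihb _ _ hx
    obtain ⟨u2, h2⟩ := iha _ _ hy
    exact ⟨max u1 u2, fun h' H => show v ∈ (ev h' b n).bind (ev h' a) from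
      Part.mem_bind_iff.2 ⟨x, h1 h' (H.mono (le_max_left _ _)),
      h2 h' (H.mono (le_max_right _ _))⟩⟩
  | prec a b iha ihb =>
    intro p
    simp only [ev]
    generalize (Nat.unpair p).1 = a'
    generalize (Nat.unpair p).2 = n
    induction n with
    | zero => intro v hv; exact iha _ _ hv
    | succ n ih =>
      intro v hv
      simp only [Part.bind_eq_bind, Part.mem_bind_iff] at hv ⊢
      obtain ⟨x, hx, hy⟩ := hv
      obtain ⟨u1, h1⟩ := ih _ hx
      obtain ⟨u2, h2⟩ := ihb _ _ hy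
      exact ⟨max u1 u2, fun h' H => ⟨x, h1 h' (H.mono (le_max_left _ _)),
        h2 h' (H.mono (le_max_right _ _))⟩⟩
  | rfind a iha =>
    intro n v hv
    obtain ⟨hv0, hm⟩ := Nat.mem_rfind.1 (show v ∈ Nat.rfind fun m =>
      Part.map (fun m => decide (m = 0)) (ev h a (Nat.pair n m)) from hv)
    obtain ⟨x, hx, hx0⟩ := (Part.mem_map_iff _).1 hv0
    obtain ⟨u1, h1⟩ := iha _ _ hx
    have h2 : ∀ m, ∃ u, m < v → ∀ h', Agr h h' u →
        false ∈ Part.map (fun m => decide (m = 0)) (ev h' a (Nat.pair n m)) := by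
      intro m
      by_cases hmv : m < v
      · obtain ⟨y, hy, hy0⟩ := (Part.mem_map_iff _).1 (hm hmv)
        obtain ⟨u, hu⟩ := iha _ _ hy
        exact ⟨u, fun _ h' H => (Part.mem_map_iff _).2 ⟨y, hu h' H, hy0⟩⟩
      · exact ⟨0, fun h => absurd h hmv⟩
    choose u hu using h2
    refine ⟨max u1 ((Finset.range v).sup u), fun h' H => ?_⟩
    change v ∈ Nat.rfind fun m => Part.map (fun m => decide (m = 0)) (ev h' a (Nat.pair n m))
    refine Nat.mem_rfind.2 ⟨(Part.mem_map_iff _).2 ⟨x, h1 h' (H.mono (le_max_left _ _)), hx0⟩,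
      fun {m} hmv => ?_⟩
    refine hu m hmv h' (H.mono (le_trans ?_ (le_max_right _ _)))
    exact Finset.le_sup (Finset.mem_range.2 hmv)

/-- T -/
theorem functionals : ∃ Φ : ℕ → (ℕ → ℕ) → ℕ → ℕ → Prop,
    (∀ k h n v, Φ k h n v → ∃ u, ∀ h' : ℕ → ℕ, (∀ m < u, h' m = h m) → Φ k h' n v) ∧
    (∀ g h : ℕ → ℕ, TuringReducible (PFun.lift g) (PFun.lift h) →
      ∃ k, ∀ n v, Φ k h n v ↔ g n = v) := by
  obtain ⟨d, hd⟩ := exists_surjective_nat OC
  refine ⟨fun k h n v => v ∈ ev h (d k) n, ?_, ?_⟩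
  · intro k h n v hv
    exact ev_cont h (d k) n v hv
  · intro g h hgh
    obtain ⟨c, hc⟩ := ev_complete h _ (RecursiveIn.iff_nat.1 hgh)
    obtain ⟨k, rfl⟩ := hd c
    refine ⟨k, fun n v => ?_⟩
    change v ∈ ev h (d k) n ↔ g n = v
    have : ev h (d k) n = Part.some (g n) := by rw [hc]; rfl
    rw [this, Part.mem_some_iff, eq_comm]

end Pool.Agent.helper30.HT
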